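import Pool.Agent.Q287.SR.Fin

/-!
# MP_1dfc85_pr: exact set recovery is impossible whenever `m/2 * h(p) - log n → -∞`

The answer to Q1 is affirmative: for all sequences `1 ≤ m(n) ≤ n-1`, `p(n) ∈ (0,1)` with
`m/2 * h(p) - log n → -∞`, every (possibly randomised) estimator fails; its success probability
is even eventually at most `1 - c` for a universal constant `c > 0`.
-/

open Filter Topology

namespace Pool.Agent.Results.MP_1dfc85_pr.ImpossibilityBelowThreshold

open Pool.Agent.Q287.SR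

theorem result : ∃ c : ℝ, 0 < c ∧ ∀ (m : ℕ → ℕ) (p : ℕ → ℝ),
    (∀ᶠ n in atTop, 1 ≤ m n ∧ m n ≤ n - 1) →
    (∀ᶠ n in atTop, 0 < p n ∧ p n < 1) →
    Tendsto (fun n : ℕ => (m n : ℝ) / 2 * Real.binEntropy (p n) - Real.log n) atTop atBot →
    ∀ A : (n : ℕ) → Estimator n (m n),
      (∀ᶠ n in atTop, success n (m n) (p n) (A n) ≤ 1 - c) ∧
      ¬ Tendsto (fun n => success n (m n) (p n) (A n)) atTop (𝓝 1) := by
  refine ⟨(1 / 2) * ((Real.exp (-18)) ^ 2 /
      ((1 + 2 * Real.exp (-18)) * (1 + Real.exp (-18)))), by positivity, ?_⟩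
  intro m p hm hp hlim A
  have h1 : ∀ᶠ n in atTop, success n (m n) (p n) (A n) ≤ 1 - (1 / 2) * ((Real.exp (-18)) ^ 2 /
      ((1 + 2 * Real.exp (-18)) * (1 + Real.exp (-18)))) := by
    filter_upwards [hm, hp, hlim.eventually_le_atBot (-2004), eventually_ge_atTop 1048577]
      with n h2 h3 h4 h5
    exact full h5 h2.1 h2.2 h3.1 h3.2 h4 (A n)
  refine ⟨h1, ?_⟩
  intro ht
  have h2 := le_of_tendsto ht h1
  have h3 : (0:ℝ) < (1 / 2) * ((Real.exp (-18)) ^ 2 /
      ((1 + 2 * Real.exp (-18)) * (1 + Real.exp (-18)))) := by positivity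
  linarith

end Pool.Agent.Results.MP_1dfc85_pr.ImpossibilityBelowThreshold
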